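import Pool.Agent.H90.Funtf

set_option autoImplicit false

namespace Pool.Agent.Results.MP_8b1f5a_an.AllLengths

/-- Every `n`-dimensional real or complex normed space has a FUNTF of every length `N ≥ n`. -/
theorem result (𝕜 : Type) [RCLike 𝕜] (X : Type) [NormedAddCommGroup X] [NormedSpace 𝕜 X]
    [FiniteDimensional 𝕜 X] (n N : ℕ) (hn : Module.finrank 𝕜 X = n) (h1 : 1 ≤ n) (hN : n ≤ N) :
    ∃ (x : Fin N → X) (f : Fin N → StrongDual 𝕜 X),
      (∀ i, ‖x i‖ = 1 ∧ ‖f i‖ = 1 ∧ f i (x i) = 1) ∧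
      ∀ v : X, ∑ i, f i v • x i = ((N : 𝕜) / (n : 𝕜)) • v := by
  have : NeZero N := ⟨by omega⟩
  have := Pool.Agent.H90.Funtf.exists_funtf h1 (Module.finBasisOfFinrankEq 𝕜 X hn)
    (G := Fin N) (Fin.castLE hN) (Fin.castLE_injective hN)
  simpa using this

end Pool.Agent.Results.MP_8b1f5a_an.AllLengths
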